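import Mathlib
import Pool.Agent.helper81.DI.SpecD

set_option autoImplicit false

namespace Pool.Agent.DI

open Pool.Agent.helper58.DC

lemma D2_card {G H : Type} [Group G] [Group H] (f : G →* H) (S : Subgroup G) :
    Nat.card S = Nat.card (f.ker ⊓ S : Subgroup G) * Nat.card (S.map f) := by
  have h1 := Subgroup.card_mul_index (f.comp S.subtype).ker
  rw [Subgroup.index_ker] at h1
  have h2 : (f.comp S.subtype).range = S.map f := by
    rw [MonoidHom.range_comp, Subgroup.range_subtype]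
  rw [h2] at h1
  rw [← h1]
  congr 1
  have h3 : (f.comp S.subtype).ker = (f.ker).subgroupOf S := by
    ext x
    simp [MonoidHom.mem_ker, Subgroup.mem_subgroupOf]
  rw [h3]
  have h4 : (f.ker).subgroupOf S = (f.ker ⊓ S).subgroupOf S := by
    rw [Subgroup.inf_subgroupOf_right]
  rw [h4]
  exact Nat.card_congr (Subgroup.subgroupOfEquivOfLe inf_le_right).toEquiv

theorem D2 (hB13 : B13_stmt) (hB14 : B14_stmt) (hB2 : B2_stmt) (hSN : SN_stmt) : D2_stmt := by
  intro K E A Γ _ _ _ _ _ _ Y G' M' q ε C hC hCne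
  have hinj := ε.i_inj
  obtain ⟨-, h14b, h14c⟩ := hB14 K Γ ε.i hinj C
  have hfirst : (M' ⊓ nrm (cmap ε.i C)) ⊓ G' = (nrm C).map ε.i := by
    rw [h14b hCne, ε.range]
    rw [inf_assoc, inf_comm (nrm (cmap ε.i C)) G', ← inf_assoc]
  refine ⟨hfirst, ?_⟩
  intro ψ hψ
  obtain ⟨-, -, -, h13d, -, h13f⟩ := hB13 K Γ 0 ε.i hinj (nrm C)
  -- membership
  have hmem : ∀ m : M', ((m : Γ) ∈ stF (M' ⊓ nrm (cmap ε.i C)) (ext0 ε.i ψ) ↔
      ε.π m ∈ Y.stab C ψ) := by
    intro m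
    have hact : ∀ k, ε.i (Y.act (ε.π m) k) = m * ε.i k * (m : Γ)⁻¹ := ε.act m
    have e1 := h14c (Y.act (ε.π m)) m hact hC
    have e2 := h13f ψ (Y.act (ε.π m)) m hact
    constructor
    · rintro ⟨h1, h2⟩
      refine ⟨e1.1 h1.2, ?_⟩
      rw [e2] at h2
      exact h13d _ _ h2
    · rintro ⟨h1, h2⟩
      refine ⟨⟨m.2, e1.2 h1⟩, ?_⟩
      rw [e2, h2]
  -- cardinality of the stabiliser
  have hle : stF (M' ⊓ nrm (cmap ε.i C)) (ext0 ε.i ψ) ≤ M' := fun x hx => hx.1.1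
  have hT : (stF (M' ⊓ nrm (cmap ε.i C)) (ext0 ε.i ψ)).subgroupOf M' =
      (Y.stab C ψ).comap ε.π := by
    ext m
    rw [Subgroup.mem_subgroupOf, Subgroup.mem_comap]
    exact hmem m
  have hc1 : Nat.card (stF (M' ⊓ nrm (cmap ε.i C)) (ext0 ε.i ψ)) =
      q * Nat.card (Y.stab C ψ) := by
    rw [← Nat.card_congr (Subgroup.subgroupOfEquivOfLe hle).toEquiv, hT, D2_card ε.π]
    rw [Subgroup.map_comap_eq_self_of_surjective ε.π_surj]
    have : ε.π.ker ⊓ (Y.stab C ψ).comap ε.π = ε.π.ker := by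
      apply inf_eq_left.2
      intro x hx
      rw [Subgroup.mem_comap, MonoidHom.mem_ker.1 hx]
      exact Subgroup.one_mem _
    rw [this, ε.card]
  -- inner automorphisms
  have hinn : ∀ g : K, Y.act (Y.inc g) = MulAut.conj g := by
    intro g
    ext k
    apply Y.inc_injective
    rw [Y.act_spec]
    simp
  have hker : Y.proj.ker ⊓ Y.stab C ψ = (nrm C).map Y.inc := by
    ext e
    constructor
    · rintro ⟨h1, h2, h3⟩
      obtain ⟨g, rfl⟩ := (Y.exact e).1 h1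
      rw [hinn] at h2
      exact ⟨g, (hSN K C hC g).1 h2, rfl⟩
    · rintro ⟨g, hg, rfl⟩
      refine ⟨(Y.exact _).2 ⟨g, rfl⟩, ?_, ?_⟩
      · rw [hinn]
        exact (hSN K C hC g).2 hg
      · rw [hinn]
        funext x
        obtain ⟨-, hh⟩ := hB2 K (nrm C)
        have := (hh ψ hψ).2.1 x g⁻¹ ((nrm C).inv_mem hg)
        rw [inv_inv] at this
        rw [← this]
        rfl
  have hc2 : Nat.card (Y.stab C ψ) = Nat.card (nrm C) * Nat.card ((Y.stab C ψ).map Y.proj) := by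
    rw [D2_card Y.proj, hker]
    congr 1
    exact (Nat.card_congr (Subgroup.equivMapOfInjective (nrm C) Y.inc Y.inc_injective).toEquiv).symm
  have hc3 : Nat.card ((nrm C).map ε.i) = Nat.card (nrm C) :=
    (Nat.card_congr (Subgroup.equivMapOfInjective (nrm C) ε.i ε.i_inj).toEquiv).symm
  unfold rr
  rw [hfirst, hc1, hc2, hc3]
  have hpos : 0 < Nat.card (nrm C) := Nat.card_pos
  rw [show q * (Nat.card (nrm C) * Nat.card ((Y.stab C ψ).map Y.proj)) =
    (q * Nat.card ((Y.stab C ψ).map Y.proj)) * Nat.card (nrm C) by ring]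
  exact Nat.mul_div_cancel _ hpos

end Pool.Agent.DI
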