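import Mathlib
import Pool.Agent.helper81.DI.SpecD

set_option autoImplicit false

namespace Pool.Agent.DI

open Pool.Agent.helper58.DC

open Classical in
lemma D4_count {K : Type} (F : Set (K → ℂ)) (hF : F.Finite) (R : Finset (K → ℂ))
    (I : (K → ℂ) → (K → ℂ) → Prop) (Cv : (K → ℂ) → Prop) (P : (K → ℂ) → Prop)
    (h1 : ∀ ψ ∈ F, ∃! b, b ∈ R ∧ I ψ b) (h2 : ∀ ψ ∈ F, ∀ b ∈ R, I ψ b → (Cv ψ ↔ Cv b)) :
    (Nat.card {ψ : K → ℂ // ψ ∈ F ∧ P ψ ∧ Cv ψ} : ℤ) =
      ∑ b ∈ R, if Cv b then (Nat.card {ψ : K → ℂ // ψ ∈ F ∧ P ψ ∧ I ψ b} : ℤ) else 0 := by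
  have key : ∀ Q : (K → ℂ) → Prop, (Nat.card {ψ : K → ℂ // ψ ∈ F ∧ P ψ ∧ Q ψ} : ℤ) =
      ∑ ψ ∈ hF.toFinset.filter P, if Q ψ then (1 : ℤ) else 0 := by
    intro Q
    have e1 : Nat.card {ψ : K → ℂ // ψ ∈ F ∧ P ψ ∧ Q ψ} =
        ((hF.toFinset.filter P).filter Q).card := by
      rw [← Nat.card_eq_finsetCard]
      apply Nat.card_congr
      apply Equiv.subtypeEquivRight
      intro ψ
      simp only [Finset.mem_filter, Set.Finite.mem_toFinset, and_assoc]
    rw [e1, Finset.card_filter]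
    push_cast
    rfl
  have e2 : ∀ b, (Nat.card {ψ : K → ℂ // ψ ∈ F ∧ P ψ ∧ I ψ b} : ℤ) =
      ∑ ψ ∈ hF.toFinset.filter P, if I ψ b then (1 : ℤ) else 0 := fun b => key (fun ψ => I ψ b)
  rw [key Cv]
  simp only [e2]
  have e3 : ∀ b ∈ R, (if Cv b then ∑ ψ ∈ hF.toFinset.filter P, (if I ψ b then (1 : ℤ) else 0)
      else 0) = ∑ ψ ∈ hF.toFinset.filter P, if Cv b ∧ I ψ b then (1 : ℤ) else 0 := by
    intro b _
    by_cases hb : Cv b
    · simp [hb]
    · simp [hb]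
  rw [Finset.sum_congr rfl e3, Finset.sum_comm]
  apply Finset.sum_congr rfl
  intro ψ hψ
  have hψF : ψ ∈ F := by
    simpa using (Finset.mem_filter.1 hψ).1
  obtain ⟨b, ⟨hb, hI⟩, hu⟩ := h1 ψ hψF
  rw [Finset.sum_eq_single b]
  · have := h2 ψ hψF b hb hI
    simp [this, hI]
  · intro b' hb' hne
    rw [if_neg]
    rintro ⟨-, h⟩
    exact hne (hu b' ⟨hb', h⟩)
  · intro h
    exact absurd hb h

theorem D4 (hD3 : D3_stmt) (hD1 : D1_stmt) (hC9 : C9_stmt) (hC16 : C16_stmt) (hC1 : C1_stmt)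
    (hB2 : B2_stmt) : D4_stmt := by
  classical
  intro K E A Γ _ _ _ _ _ _ _ Y G' M' q ε p _ M hM hpM hcyc τ d R hR hRu
  have : Finite A := Finite.of_surjective Y.proj Y.proj_surjective
  have : Fintype (Subgroup A) := Fintype.ofFinite _
  obtain ⟨-, hsym, htr, -⟩ := hC1 p M hM hpM
  -- the count
  have hN : ∀ C : Finset (Subgroup K), IsRadical p C → ∀ U : Subgroup A,
      (Nat.card {ψ : K → ℂ // ψ ∈ IrrOn (nrm C) ∧
          Defect p (nrm C) ψ (d - padicValNat p (q * Nat.card U)) ∧ Cov M G' τ (ext0 ε.i ψ) ∧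
          (Y.stab C ψ).map Y.proj = U} : ℤ) =
      ∑ b ∈ R, if Cov M G' τ (ext0 ε.i b) then
        (kC Y p M b (d - padicValNat p (q * Nat.card U)) U C : ℤ) else 0 := by
    intro C hC U
    have h1 : ∀ ψ ∈ IrrOn (nrm C), ∃! b, b ∈ R ∧ Induces M ψ b := fun ψ hψ =>
      hRu ψ (hC9 K p M hM hpM C hC ψ hψ)
    have h2 : ∀ ψ ∈ IrrOn (nrm C), ∀ b ∈ R, Induces M ψ b →
        (Cov M G' τ (ext0 ε.i ψ) ↔ Cov M G' τ (ext0 ε.i b)) := by
      intro ψ _ b _ hI
      have h3 := hC16 K Γ p M hM hpM ε.i ε.i_inj ψ b hI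
      constructor
      · intro h g hg
        exact htr _ _ _ (hsym _ _ (h3 g)) (h g hg)
      · intro h g hg
        exact htr _ _ _ (h3 g) (h g hg)
    have h4 := D4_count (IrrOn (nrm C)) (hB2 K (nrm C)).1 R (Induces M)
      (fun ψ => Cov M G' τ (ext0 ε.i ψ))
      (fun ψ => Defect p (nrm C) ψ (d - padicValNat p (q * Nat.card U)) ∧
        (Y.stab C ψ).map Y.proj = U) h1 h2
    have e1 : Nat.card {ψ : K → ℂ // ψ ∈ IrrOn (nrm C) ∧
          Defect p (nrm C) ψ (d - padicValNat p (q * Nat.card U)) ∧ Cov M G' τ (ext0 ε.i ψ) ∧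
          (Y.stab C ψ).map Y.proj = U} = Nat.card {ψ : K → ℂ // ψ ∈ IrrOn (nrm C) ∧
          (Defect p (nrm C) ψ (d - padicValNat p (q * Nat.card U)) ∧
            (Y.stab C ψ).map Y.proj = U) ∧ Cov M G' τ (ext0 ε.i ψ)} := by
      apply Nat.card_congr
      apply Equiv.subtypeEquivRight
      intro ψ
      tauto
    rw [e1, h4]
    apply Finset.sum_congr rfl
    intro b _
    have e2 : kC Y p M b (d - padicValNat p (q * Nat.card U)) U C =
        Nat.card {ψ : K → ℂ // ψ ∈ IrrOn (nrm C) ∧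
          (Defect p (nrm C) ψ (d - padicValNat p (q * Nat.card U)) ∧
            (Y.stab C ψ).map Y.proj = U) ∧ Induces M ψ b} := by
      unfold kC
      apply Nat.card_congr
      apply Equiv.subtypeEquivRight
      intro ψ
      tauto
    rw [e2]
  have hfin : {C : Finset (Subgroup K) | IsRadical p C}.Finite := Set.toFinite _
  rw [finsum_mem_eq_finite_toFinset_sum _ hfin]
  simp only [finsum_eq_sum_of_fintype]
  have hL : ∀ C ∈ hfin.toFinset, (-1 : ℤ) ^ (C.card + 1) * gfun p M G' τ d (M' ⊓ nrm (cmap ε.i C)) =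
      ∑ b ∈ R, if Cov M G' τ (ext0 ε.i b) then
        ∑ U : Subgroup A, ((q * Nat.card U : ℕ) : ℤ) ^ 2 * ((-1 : ℤ) ^ (C.card + 1) *
          ((Nat.card (nrm C) : ℤ) * (kC Y p M b (d - padicValNat p (q * Nat.card U)) U C : ℤ)))
        else 0 := by
    intro C hC
    have hC' : IsRadical p C := by simpa using hC
    obtain ⟨P₀, hP₀, -⟩ := hC'.radical
    rw [hD3 K E A Γ Y G' M' q ε p M hcyc τ d C hC'.chain ⟨P₀, hP₀⟩, finsum_eq_sum_of_fintype]
    simp only [hN C hC']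
    simp only [Finset.mul_sum]
    rw [Finset.sum_comm]
    apply Finset.sum_congr rfl
    intro b _
    by_cases hb : Cov M G' τ (ext0 ε.i b)
    · simp only [hb, if_true]
      apply Finset.sum_congr rfl
      intro U _
      ring
    · simp [hb]
  rw [Finset.sum_congr rfl hL, Finset.sum_comm]
  apply Finset.sum_congr rfl
  intro b hb
  by_cases hcb : Cov M G' τ (ext0 ε.i b)
  · simp only [hcb, if_true]
    rw [Finset.sum_comm]
    apply Finset.sum_congr rfl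
    intro U _
    rw [hD1 K E A Y p M b (hR b hb), finsum_mem_eq_finite_toFinset_sum _ hfin, Finset.mul_sum]
  · simp [hcb]

end Pool.Agent.DI
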