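import Mathlib
import Pool.Agent.helper81.DI.SpecD

set_option autoImplicit false

namespace Pool.Agent.DI

open Pool.Agent.helper58.DC

lemma D0_iff {G : Type} [Group G] {M : Ideal (integralClosure ℤ ℂ)} {b χ : G → ℂ}
    (h : Induces M b χ) (ψ : G → ℂ) : Induces M ψ b ↔ Induces M ψ χ := by
  constructor
  · intro h' g
    obtain ⟨a, ha, ha'⟩ := h g
    obtain ⟨c, hc, hc'⟩ := h' g
    refine ⟨c + a, M.add_mem hc ha, ?_⟩
    have : omega ψ g - omega χ g = (omega ψ g - omega b g) + (omega b g - omega χ g) := by ring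
    rw [this, ha', hc']
    simp
  · intro h' g
    obtain ⟨a, ha, ha'⟩ := h g
    obtain ⟨c, hc, hc'⟩ := h' g
    refine ⟨c - a, M.sub_mem hc ha, ?_⟩
    have : omega ψ g - omega b g = (omega ψ g - omega χ g) - (omega b g - omega χ g) := by ring
    rw [this, ha', hc']
    simp

theorem D0 : D0_stmt := by
  intro G E A _ _ _ _ X p M b χ h d U
  have hk : ∀ C, kC X p M b d U C = kC X p M χ d U C := by
    intro C
    unfold kC
    apply Nat.card_congr
    apply Equiv.subtypeEquivRight
    intro ψ
    rw [D0_iff h ψ]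
  unfold altSum
  simp only [hk]

end Pool.Agent.DI
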